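import Mathlib
import Pool.Agent.helper55.GL.Spec

/-!
# Project gl, module ACN: atoms are connected
-/

set_option autoImplicit false

namespace Pool.Agent.GL

open SimpleGraph

theorem ACN : ACN_stmt := by
  intro V H hne hat
  obtain ⟨v⟩ := hne
  have hsep : Sep H {w | H.Reachable v w} {w | ¬ H.Reachable v w} := by
    refine ⟨?_, ?_, ?_⟩
    · ext w
      simp only [Set.mem_union, Set.mem_setOf_eq, Set.mem_univ, iff_true]
      exact em _
    · intro a ha _ b hb _ hab
      exact hb (SimpleGraph.Reachable.trans ha hab.reachable)
    · intro a ha b _ _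
      exact absurd ha.1 ha.2
  rcases hat _ _ hsep with h | h
  · have hall : ∀ w, H.Reachable v w := fun w => by
      have : w ∈ {w | H.Reachable v w} := by rw [h]; exact Set.mem_univ _
      exact this
    haveI : Nonempty V := ⟨v⟩
    exact ⟨fun a b => (hall a).symm.trans (hall b)⟩
  · exfalso
    have hv : v ∈ {w | ¬ H.Reachable v w} := by rw [h]; exact Set.mem_univ _
    exact hv (SimpleGraph.Reachable.refl v)

end Pool.Agent.GL
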